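import Pool.Agent.W622.ETC.Stm

set_option autoImplicit false

/-!
Hereditarily linked families of alternating forms over `F_2` contain every alternating form which is
locally in them.
-/

namespace Pool.Agent.W22.ELT

open Module Pool.Agent.W622.ETC

variable {V : Type} [AddCommGroup V] [Module (ZMod 2) V] [Finite V]

theorem step (A : Fam V) (hA : AltFam A) (hH : Linked A) (b : V)
    (hLU : LU (res A (ann b))) : LU A := by
  intro ζ hζ h
  obtain ⟨ω, hω, hωb⟩ := h b
  have h' : ∀ a, ∃ η ∈ A, η a = (ζ + ω) a := by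
    intro a
    obtain ⟨η, hη, hηa⟩ := h a
    exact ⟨η + ω, A.add_mem hη hω, by rw [LinearMap.add_apply, LinearMap.add_apply, hηa]⟩
  have hb0 : (ζ + ω) b = 0 := by rw [LinearMap.add_apply, hωb, vadd]
  have key : ζ + ω ∈ res A (ann b) := by
    apply hLU _ (hζ.add (hA ω hω))
    intro a
    obtain ⟨ω1, h1, e1⟩ := h' a
    obtain ⟨ω2, h2, e2⟩ := h' (a + b)
    have e3 : (ζ + ω) (a + b) = (ζ + ω) a := by rw [map_add, hb0, add_zero]
    obtain ⟨η, hη, ea, ec⟩ := hH ω1 h1 ω2 h2 a (a + b) (by rw [e1, e2, e3])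
    refine ⟨η, (mem_res_ann hA).mpr ⟨hη, ?_⟩, by rw [ea, e1]⟩
    rw [map_add, ea] at ec
    simpa using ec
  have h2 := A.add_mem (res_le A _ key) hω
  have e : ζ + ω + ω = ζ := add_cancel' ζ ω
  rwa [e] at h2

theorem t_LU : S_LU := by
  intro V _ _ _ A
  induction A using WellFoundedLT.induction with
  | _ A ih =>
    intro hA hH
    by_cases h0 : ∃ b : V, ∃ ω ∈ A, ω b ≠ 0
    · obtain ⟨b, ω, hω, hb⟩ := h0
      refine step A hA hH.linked b (ih (res A (ann b)) ?_ (hA.res _) (hH.res _))
      refine lt_of_le_of_ne (res_le A _) ?_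
      intro he
      have h1 : ω ∈ res A (ann b) := by rw [he]; exact hω
      exact hb ((mem_res_ann hA).mp h1).2
    · push Not at h0
      intro ζ _ h
      have : ζ = 0 := by
        refine LinearMap.ext fun a => ?_
        obtain ⟨ω, hω, e⟩ := h a
        rw [← e, h0 a ω hω]; rfl
      rw [this]
      exact A.zero_mem

end Pool.Agent.W22.ELT
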